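import Pool.Agent.Helper74.RN.St

set_option autoImplicit false

/-!
# Module CFA of project RN: derivations of the grammar of the words of cells
-/

open Pool.Agent.Helper74 Pool.Agent.Helper74.RN

namespace Pool.Agent.Helper62.RN

section

variable {G : Type} {R : G → G → Prop} {h : {r | Rl R r}.Finite}

/-- `w` is derived from `s`. -/
def Dv (R : G → G → Prop) (h : {r | Rl R r}.Finite) (s : List (Symbol (Ce G) Nt))
    (w : List (Ce G)) : Prop := ∃ n, DR.Pr (gM R h) n s w

theorem dnil : Dv R h [] [] := ⟨0, DR.Pr.nil⟩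

theorem dterm (a : Ce G) {s : List (Symbol (Ce G) Nt)} {w : List (Ce G)} (hw : Dv R h s w) :
    Dv R h (Symbol.terminal a :: s) (a :: w) := by
  obtain ⟨n, hn⟩ := hw
  exact ⟨n + 1, DR.Pr.term (g := gM R h) a s w n hn⟩

theorem dnont (r : ContextFreeRule (Ce G) Nt) (hr : Rl R r) {s : List (Symbol (Ce G) Nt)}
    {u v : List (Ce G)} (hu : Dv R h r.output u) (hv : Dv R h s v) :
    Dv R h (Symbol.nonterminal r.input :: s) (u ++ v) := by
  obtain ⟨n, hn⟩ := hu
  obtain ⟨m, hm⟩ := hv
  refine ⟨n + m + 1, DR.Pr.nont (g := gM R h) r s u v n m ?_ hn hm⟩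
  exact (Set.Finite.mem_toFinset h).2 hr

theorem drule (r : ContextFreeRule (Ce G) Nt) (hr : Rl R r)
    {u : List (Ce G)} (hu : Dv R h r.output u) :
    Dv R h [Symbol.nonterminal r.input] u := by
  have := dnont r hr hu (dnil (R := R) (h := h))
  rwa [List.append_nil] at this

theorem join_aux {t : List (Symbol (Ce G) (gM R h).NT)} {v : List (Ce G)} {m : ℕ}
    (hm : DR.Pr (gM R h) m t v) : ∀ (n : ℕ) (s : List (Symbol (Ce G) (gM R h).NT))
      (u : List (Ce G)), DR.Pr (gM R h) n s u → DR.Pr (gM R h) (n + m) (s ++ t) (u ++ v) := by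
    intro n s u hn
    induction hn with
    | nil => simpa using hm
    | term a s w n _ ih =>
      have h1 := DR.Pr.term a (s ++ t) (w ++ v) (n + m) ih
      have h2 : n + 1 + m = n + m + 1 := by omega
      rw [h2]
      exact h1
    | nont r s u v' n k hr hu _ _ ih =>
      have h1 := DR.Pr.nont r (s ++ t) u (v' ++ v) n (k + m) hr hu ih
      have h2 : n + k + 1 + m = n + (k + m) + 1 := by omega
      rw [h2, List.append_assoc]
      exact h1

theorem djoin {s t : List (Symbol (Ce G) Nt)} {u v : List (Ce G)} (hu : Dv R h s u)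
    (hv : Dv R h t v) : Dv R h (s ++ t) (u ++ v) := by
  obtain ⟨n, hn⟩ := hu
  obtain ⟨m, hm⟩ := hv
  exact ⟨n + m, join_aux (R := R) (h := h) hm n s u hn⟩

theorem dE1 : ∀ (p q : List (Ce G)), ns p → ns q → p.length = q.length →
    Dv R h [Symbol.nonterminal (Nt.E 1)] (p ++ .s :: q) := by
  intro p
  induction p with
  | nil =>
    intro q _ _ hl
    have hq : q = [] := List.eq_nil_of_length_eq_zero (by simpa using hl.symm)
    subst hq
    exact drule _ Rl.e0 (dterm _ dnil)
  | cons x p ih =>
    intro q hp hq hl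
    rcases List.eq_nil_or_concat q with h1 | ⟨q', y, h1⟩
    · subst h1
      simp at hl
    · subst h1
      simp only [List.concat_eq_append] at *
      rw [ns_append, ns_cons] at hq
      rw [ns_cons] at hp
      have hl' : p.length = q'.length := by
        simp only [List.length_cons, List.length_append, List.length_nil] at hl
        omega
      have h2 := ih q' hp.2 hq.1 hl'
      have h3 := drule (R := R) (h := h) _ (Rl.e1 x y hp.1 hq.2.1)
        (dterm x (djoin h2 (dterm y dnil)))
      simpa using h3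

theorem dE : ∀ (d : Fin 3) (w : List (Ce G)), Ed ((d.val : ℤ) - 1) w →
    Dv R h [Symbol.nonterminal (Nt.E d)] w := by
  rintro d w ⟨p, q, rfl, hp, hq, hl⟩
  fin_cases d
  · -- `p` is shorter
    rcases List.eq_nil_or_concat q with h1 | ⟨q', y, h1⟩
    · subst h1
      simp at hl
    · subst h1
      simp only [List.concat_eq_append] at *
      rw [ns_append, ns_cons] at hq
      have hl' : p.length = q'.length := by
        simp only [List.length_cons, List.length_append, List.length_nil] at hl
        push_cast at hl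
        omega
      have h2 := dE1 (R := R) (h := h) p q' hp hq.1 hl'
      have h3 := drule (R := R) (h := h) _ (Rl.e3 y hq.2.1) (djoin h2 (dterm y dnil))
      simpa using h3
  · have hl' : p.length = q.length := by
      push_cast at hl
      simp at hl
      omega
    exact dE1 p q hp hq hl'
  · cases p with
    | nil =>
      simp at hl
      omega
    | cons x p =>
      rw [ns_cons] at hp
      have hl' : p.length = q.length := by
        simp only [List.length_cons] at hl
        push_cast at hl
        omega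
      have h2 := dE1 (R := R) (h := h) p q hp.2 hq hl'
      exact drule (R := R) (h := h) _ (Rl.e2 x hp.1) (dterm x h2)

theorem dE0 (w : List (Ce G)) (hw : Ed 0 w) : Dv R h [Symbol.nonterminal (Nt.E 1)] w :=
  dE 1 w (by simpa using hw)

theorem sh_fin (A : Ce G) (d : ℤ) (hA : Sh A d) : ∃ d' : Fin 3, ((d'.val : ℤ) - 1) = d := by
  cases hA
  · exact ⟨1, by norm_num⟩
  · exact ⟨2, by norm_num⟩
  · exact ⟨0, by norm_num⟩
  · exact ⟨1, by norm_num⟩

theorem dM : ∀ w : List (Ce G), MM R w → Dv R h [Symbol.nonterminal Nt.M] w := by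
  intro w hw
  induction hw with
  | e w hw => exact drule _ Rl.m0 (dE0 w hw)
  | one A d w₀ w₁ f w₂ hA h0 h1 hf _ ih =>
    obtain ⟨d', rfl⟩ := sh_fin A d hA
    exact drule _ (Rl.m1 A d' f hA hf)
      (djoin (dE0 w₀ h0) (dterm A (djoin (dE d' w₁ h1) (dterm f ih))))
  | two x y w₀ w₁ f m w₃ f' m' hR h0 h1 hf _ h3 hf' _ ih1 ih2 =>
    exact drule _ (Rl.m2 x y f f' hR hf hf')
      (djoin (dE0 w₀ h0) (dterm _ (djoin (dE0 w₁ h1) (dterm f (djoin ih1
        (dterm _ (djoin (dE0 w₃ h3) (dterm f' ih2))))))))

end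

theorem hCFA : Pool.Agent.Helper74.RN.StCFA := by
  intro G R h
  exact ⟨fun d w hw => dE d w hw, fun w hw => dM w hw⟩

end Pool.Agent.Helper62.RN
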